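import Pool.Agent.H22.LG.Stm

set_option autoImplicit false

namespace H43.LG

open Pool.Agent.Y382.PAR H22.CM H22.LG Matrix

section
variable {F : Type} [Field F] {n : ℕ}

theorem det_tv (u v : Fin n → F) (h : v ⬝ᵥ u = 0) : (1 + vecMulVec u v).det = 1 := by
  rw [vecMulVec_eq Unit, det_one_add_replicateCol_mul_replicateRow, h, add_zero]

/-- `1 + u vᵀ` -/
noncomputable def tv (u v : Fin n → F) (h : v ⬝ᵥ u = 0) : GL (Fin n) F :=
  Matrix.GeneralLinearGroup.mk'' (1 + vecMulVec u v) (by rw [det_tv u v h]; exact isUnit_one)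

theorem tv_val (u v : Fin n → F) (h : v ⬝ᵥ u = 0) : (tv u v h).1 = 1 + vecMulVec u v := rfl

theorem tv_det (u v : Fin n → F) (h : v ⬝ᵥ u = 0) : (tv u v h).1.det = 1 := det_tv u v h

theorem tv_apply (u v : Fin n → F) (h : v ⬝ᵥ u = 0) (i j : Fin n) :
    (tv u v h).1 i j = (if i = j then 1 else 0) + u i * v j := by
  rw [tv_val, Matrix.add_apply, Matrix.one_apply, vecMulVec_apply]

theorem tv_mul_apply (u v : Fin n → F) (h : v ⬝ᵥ u = 0) (x : GL (Fin n) F) (i j : Fin n) :
    (tv u v h * x).1 i j = x.1 i j + u i * ∑ l, v l * x.1 l j := by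
  show ((tv u v h).1 * x.1) i j = _
  rw [tv_val, add_mul, one_mul, Matrix.add_apply, Matrix.mul_apply, Finset.mul_sum]
  congr 1
  apply Finset.sum_congr rfl
  intro l _
  rw [vecMulVec_apply, mul_assoc]

theorem sum_single (m : Fin n) (a : F) (x : Fin n → F) :
    ∑ l, (Pi.single m a : Fin n → F) l * x l = a * x m := by
  rw [Finset.sum_eq_single m]
  · rw [Pi.single_eq_same]
  · intro l _ hl
    rw [Pi.single_eq_of_ne hl, zero_mul]
  · intro h; exact absurd (Finset.mem_univ m) h

theorem dot_single (m : Fin n) (a : F) (u : Fin n → F) (h : u m = 0) :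
    (Pi.single m a : Fin n → F) ⬝ᵥ u = 0 := by
  rw [dotProduct, sum_single, h, mul_zero]

theorem tv_inv (u v : Fin n → F) (h : v ⬝ᵥ u = 0) (h' : (-v) ⬝ᵥ u = 0) :
    tv u v h * tv u (-v) h' = 1 := by
  apply Units.ext
  show (1 + vecMulVec u v) * (1 + vecMulVec u (-v)) = 1
  have e1 : vecMulVec u (-v) = - vecMulVec u v := by
    ext i j
    simp [vecMulVec_apply]
  have e2 : vecMulVec u v * vecMulVec u v = 0 := by
    ext i j
    rw [Matrix.mul_apply]
    simp only [vecMulVec_apply, Matrix.zero_apply]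
    have : ∑ l, u i * v l * (u l * v j) = u i * (v ⬝ᵥ u) * v j := by
      rw [dotProduct, Finset.mul_sum, Finset.sum_mul]
      apply Finset.sum_congr rfl
      intro l _
      ring
    rw [this, h]; ring
  rw [e1]
  have : (1 + vecMulVec u v) * (1 + - vecMulVec u v) = 1 - vecMulVec u v * vecMulVec u v := by
    noncomm_ring
  rw [this, e2, sub_zero]

end

theorem P_le {F : Type} [Field F] [Fintype F] [DecidableEq F] {n k : ℕ} {g : GL (Fin n) F}
    (h : g ∈ P n (k + 1) F) : g ∈ P n k F :=
  fun i j hj hij => h i j (Nat.lt_succ_of_lt hj) hij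

theorem tv_mem {F : Type} [Field F] [Fintype F] [DecidableEq F] {n k : ℕ} (u v : Fin n → F)
    (h : v ⬝ᵥ u = 0) (hv : ∀ j : Fin n, j.1 < k → v j = 0) : tv u v h ∈ P n k F := by
  intro i j hj hij
  rw [tv_apply, hv j hj, mul_zero, add_zero, if_neg (ne_of_gt hij)]

theorem t_BRU : S_BRU := by
  intro F _ _ _ n k hk
  set κ : Fin n := ⟨k, by omega⟩ with hκ
  set κ' : Fin n := ⟨k + 1, by omega⟩ with hκ'
  have hne : κ ≠ κ' := by
    intro h; have := congrArg Fin.val h; simp [hκ, hκ'] at this
  have hw0 : (Pi.single κ 1 : Fin n → F) ⬝ᵥ (Pi.single κ' 1) = 0 :=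
    dot_single _ _ _ (Pi.single_eq_of_ne hne _)
  have hw0' : (-(Pi.single κ 1 : Fin n → F)) ⬝ᵥ (Pi.single κ' 1) = 0 := by
    rw [neg_dotProduct, hw0, neg_zero]
  set w : GL (Fin n) F := tv (Pi.single κ' 1) (Pi.single κ 1) hw0 with hw
  refine ⟨w, ?_, ?_, tv_det _ _ _, ?_⟩
  · apply tv_mem
    intro j hj
    apply Pi.single_eq_of_ne
    intro h
    rw [h] at hj
    simp [hκ] at hj
  · intro h
    have := h κ' κ (by simp [hκ]) (by simp [hκ, hκ', Fin.lt_def])
    rw [tv_apply, if_neg hne.symm, Pi.single_eq_same, Pi.single_eq_same] at this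
    simp at this
  · intro g hg hg'
    -- a nonzero entry of column `k` below the diagonal
    obtain ⟨i0, hi0, hgi0⟩ : ∃ i : Fin n, κ < i ∧ g.1 i κ ≠ 0 := by
      by_contra hc
      push Not at hc
      apply hg'
      intro i j hj hij
      rcases Nat.lt_succ_iff_lt_or_eq.1 hj with h | h
      · exact hg i j h hij
      · have : j = κ := Fin.ext h
        subst this
        exact hc i hij
    -- step 1
    obtain ⟨t, ht, htd, htg⟩ : ∃ t : GL (Fin n) F, t ∈ P n (k + 1) F ∧ t.1.det = 1 ∧
        (t * g).1 κ' κ ≠ 0 := by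
      by_cases hc : g.1 κ' κ = 0
      · have hi0' : i0 ≠ κ' := by
          rintro rfl; exact hgi0 hc
        refine ⟨tv (Pi.single κ' 1) (Pi.single i0 1)
          (dot_single _ _ _ (Pi.single_eq_of_ne hi0' _)), ?_, tv_det _ _ _, ?_⟩
        · apply tv_mem
          intro j hj
          apply Pi.single_eq_of_ne
          rintro rfl
          have h1 : k < j.1 := hi0
          omega
        · rw [tv_mul_apply, sum_single i0 (1 : F) (fun l => g.1 l κ), hc, Pi.single_eq_same]
          simpa using hgi0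
      · exact ⟨1, (P n (k + 1) F).one_mem, by simp, by rw [one_mul]; exact hc⟩
    -- step 2
    set y : GL (Fin n) F := t * g with hy
    set c : F := y.1 κ' κ with hcdef
    set u : Fin n → F := fun i => if i = κ then 1 - y.1 κ κ / c else
      if κ' < i then - (y.1 i κ / c) else 0 with hu
    have huκ' : u κ' = 0 := by
      simp only [hu]
      rw [if_neg hne.symm, if_neg (lt_irrefl _)]
    have h0 : (Pi.single κ' 1 : Fin n → F) ⬝ᵥ u = 0 := dot_single _ _ _ huκ'
    set a0 : GL (Fin n) F := tv u (Pi.single κ' 1) h0 with ha0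
    have ha0P : a0 ∈ P n (k + 1) F := by
      apply tv_mem
      intro j hj
      apply Pi.single_eq_of_ne
      rintro rfl
      simp [hκ'] at hj
    have hyP : y ∈ P n k F := (P n k F).mul_mem (P_le ht) hg
    set x : GL (Fin n) F := a0 * y with hx
    have hxP : x ∈ P n k F := (P n k F).mul_mem (P_le ha0P) hyP
    have hxa : ∀ i, x.1 i κ = y.1 i κ + u i * c := by
      intro i
      rw [hx, ha0, tv_mul_apply, sum_single κ' (1 : F) (fun l => y.1 l κ), one_mul]
    have hxκ : x.1 κ κ = c := by
      rw [hxa]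
      simp only [hu, if_true]
      field_simp
      ring
    have hxκ' : x.1 κ' κ = c := by
      rw [hxa, huκ', zero_mul, add_zero]
    have hxi : ∀ i, κ' < i → x.1 i κ = 0 := by
      intro i hi
      have hik : i ≠ κ := by
        rintro rfl
        have : κ'.1 < κ.1 := hi
        simp [hκ, hκ'] at this
      rw [hxa]
      simp only [hu]
      rw [if_neg hik, if_pos hi]
      field_simp
      ring
    set h : GL (Fin n) F := tv (Pi.single κ' 1) (-(Pi.single κ 1)) hw0' * x with hh
    have hha : ∀ i j, h.1 i j = x.1 i j - (Pi.single κ' 1 : Fin n → F) i * x.1 κ j := by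
      intro i j
      rw [hh, tv_mul_apply]
      have : ∑ l, (-(Pi.single κ 1 : Fin n → F)) l * x.1 l j = - x.1 κ j := by
        have h2 := sum_single κ (1 : F) (fun l => x.1 l j)
        simp only [Pi.neg_apply, neg_mul, Finset.sum_neg_distrib]
        rw [h2, one_mul]
      rw [this]; ring
    refine ⟨(a0 * t)⁻¹, h, (P n (k + 1) F).inv_mem ((P n (k + 1) F).mul_mem ha0P ht), ?_, ?_, ?_⟩
    · intro i j hj hij
      rw [hha]
      rcases Nat.lt_succ_iff_lt_or_eq.1 hj with h1 | h1
      · rw [hxP i j h1 hij]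
        by_cases hi : i = κ'
        · rw [hxP κ j h1 (by rw [Fin.lt_def]; exact h1), mul_zero, sub_zero]
        · rw [Pi.single_eq_of_ne hi, zero_mul, sub_zero]
      · have hjκ : j = κ := Fin.ext h1
        rw [hjκ] at hij ⊢
        by_cases hi : i = κ'
        · rw [hi, hxκ', hxκ, Pi.single_eq_same, one_mul, sub_self]
        · have hi' : κ' < i := by
            have h2 : k < i.1 := hij
            have h3 : i.1 ≠ k + 1 := fun h => hi (Fin.ext h)
            rw [Fin.lt_def]
            show k + 1 < i.1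
            omega
          rw [hxi i hi', Pi.single_eq_of_ne hi, zero_mul, sub_zero]
    · have h1 : ((a0 * t)⁻¹ : GL (Fin n) F).1.det * (a0 * t).1.det = 1 := by
        rw [← Matrix.det_mul]
        have : ((a0 * t)⁻¹ : GL (Fin n) F).1 * (a0 * t).1 = 1 := by
          rw [← Units.val_mul, inv_mul_cancel, Units.val_one]
        rw [this, Matrix.det_one]
      have h2 : (a0 * t).1.det = 1 := by
        rw [Units.val_mul, Matrix.det_mul, htd, mul_one]
        exact tv_det _ _ _
      rw [h2, mul_one] at h1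
      exact h1
    · have h1 : w * h = x := by
        rw [hh, ← mul_assoc, hw, tv_inv, one_mul]
      rw [mul_assoc, h1, hx, hy, ← mul_assoc a0 t g, inv_mul_cancel_left]

end H43.LG
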